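import Pool.Agent.Helper54.SAW.Arr

set_option autoImplicit false

/-!
# Block A5 (ValK): block decomposition of an arrangement at the zeros of the exploration
-/

namespace Pool.Agent.Helper66.SAW

open Finset Pool.Agent.Helper54.SAW

section B

variable {ι : Type*}

/-- excursion of the exploration: a nonempty list returning to zero for the first time. -/
def Exc (w : ι → ℕ) (B : List (ι × Bool)) : Prop :=
  B ≠ [] ∧ expl w 0 B = 0 ∧ ∀ z, 1 ≤ z → z < B.length → expl w 0 (B.take z) ≠ 0

theorem Exc_flipS {w : ι → ℕ} {B : List (ι × Bool)} (h : Exc w B) : Exc w (flipS B) := by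
  obtain ⟨h1, h2, h3⟩ := h
  refine ⟨?_, ?_, ?_⟩
  · intro h
    apply h1
    have := congrArg List.length h
    simp [flipS] at this
    exact this
  · rw [expl_flipS, h2]
  · intro z hz hz'
    rw [flipS_take, expl_flipS]
    exact h3 z hz (by simpa [flipS] using hz')

theorem Kz_block (w : ι → ℕ) (m : ℕ) (B R : List (ι × Bool)) (hB : Exc w B)
    (hm : B.length ≤ m) : Kz w m (B ++ R) = Kz w (m - B.length) R + 1 := by
  obtain ⟨h1, h2, h3⟩ := hB
  have hlen : 1 ≤ B.length := by
    rcases B with _ | ⟨x, B⟩
    · exact absurd rfl h1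
    · simp
  unfold Kz
  have e : (Icc 1 m).filter (fun z => expl w 0 ((B ++ R).take z) = 0) =
      insert B.length (((Icc 1 (m - B.length)).filter
        (fun z => expl w 0 (R.take z) = 0)).image (· + B.length)) := by
    ext z
    simp only [mem_filter, mem_Icc, mem_insert, mem_image]
    constructor
    · rintro ⟨⟨hz1, hz2⟩, hz3⟩
      rcases lt_trichotomy z B.length with hlt | heq | hgt
      · exfalso
        apply h3 z hz1 hlt
        rwa [List.take_append_of_le_length (by omega)] at hz3
      · exact Or.inl heq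
      · right
        refine ⟨z - B.length, ⟨⟨by omega, by omega⟩, ?_⟩, by omega⟩
        have : (B ++ R).take z = B ++ R.take (z - B.length) := by
          rw [List.take_append, List.take_of_length_le (by omega)]
        rw [this, expl_append, h2] at hz3
        exact hz3
    · rintro (rfl | ⟨y, ⟨⟨hy1, hy2⟩, hy3⟩, rfl⟩)
      · refine ⟨⟨hlen, hm⟩, ?_⟩
        rw [List.take_append_of_le_length le_rfl, List.take_length, h2]
      · refine ⟨⟨by omega, by omega⟩, ?_⟩
        have : (B ++ R).take (y + B.length) = B ++ R.take y := by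
          rw [List.take_append, List.take_of_length_le (by omega)]
          congr 2
          omega
        rw [this, expl_append, h2]
        exact hy3
  rw [e, card_insert_of_notMem, card_image_of_injective]
  · intro a b hab
    simpa using hab
  · intro h
    rw [mem_image] at h
    obtain ⟨y, hy, hy'⟩ := h
    rw [mem_filter, mem_Icc] at hy
    omega

theorem Kz_blocks (w : ι → ℕ) (P : List (List (ι × Bool))) (hP : ∀ B ∈ P, Exc w B)
    (m : ℕ) (R : List (ι × Bool)) (hm : P.flatten.length ≤ m) :
    Kz w m (P.flatten ++ R) = Kz w (m - P.flatten.length) R + P.length := by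
  induction P generalizing m with
  | nil => simp
  | cons B P ih =>
    rw [List.flatten_cons] at hm ⊢
    rw [List.length_append] at hm
    rw [List.append_assoc, Kz_block w m B _ (hP B (by simp)) (by omega),
      ih (fun B' hB' => hP B' (by simp [hB'])) (m - B.length) (by omega), List.length_append,
      List.length_cons, ← Nat.sub_sub]
    ring

/-- the properties of the decomposition -/
def DD (w : ι → ℕ) (m : ℕ) (P : List (List (ι × Bool))) (R : List (ι × Bool)) : Prop :=
  (∀ B ∈ P, Exc w B) ∧ P.flatten.length ≤ m ∧ Kz w (m - P.flatten.length) R = 0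

theorem DD_Kz {w : ι → ℕ} {m : ℕ} {P : List (List (ι × Bool))} {R : List (ι × Bool)}
    (h : DD w m P R) : Kz w m (P.flatten ++ R) = P.length := by
  rw [Kz_blocks w P h.1 m R h.2.1, h.2.2, zero_add]

theorem exists_dd (w : ι → ℕ) (l : ℕ) : ∀ (m : ℕ) (xi : List (ι × Bool)), m ≤ xi.length →
    Kz w m xi = l → ∃ P R, P.length = l ∧ xi = P.flatten ++ R ∧ DD w m P R := by
  induction l with
  | zero =>
    intro m xi _ h
    exact ⟨[], xi, rfl, by simp, by simp, by simp, by simpa using h⟩
  | succ l ih =>
    intro m xi hm h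
    classical
    have hne : ∃ z, 1 ≤ z ∧ z ≤ m ∧ expl w 0 (xi.take z) = 0 := by
      by_contra hcon
      push Not at hcon
      have : Kz w m xi = 0 := by
        unfold Kz
        rw [card_eq_zero, filter_eq_empty_iff]
        intro z hz
        rw [mem_Icc] at hz
        exact hcon z hz.1 hz.2
      omega
    have hspec := Nat.find_spec hne
    have hmin := fun z => @Nat.find_min _ _ hne z
    set z := Nat.find hne with hz
    have hlt : (xi.take z).length = z := by rw [List.length_take]; omega
    have hB : Exc w (xi.take z) := by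
      refine ⟨?_, hspec.2.2, ?_⟩
      · intro h0
        rw [h0] at hlt
        simp at hlt
        omega
      · intro y hy1 hy2
        rw [hlt] at hy2
        rw [List.take_take, min_eq_left hy2.le]
        intro h0
        exact hmin y hy2 ⟨hy1, by omega, h0⟩
    have hK := Kz_block w m (xi.take z) (xi.drop z) hB (by omega)
    rw [List.take_append_drop, h, hlt] at hK
    obtain ⟨P, R, h1, h2, h3, h4, h5⟩ := ih (m - z) (xi.drop z) (by rw [List.length_drop]; omega)
      (by omega)
    refine ⟨xi.take z :: P, R, by simp [h1], ?_, ?_, ?_, ?_⟩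
    · rw [List.flatten_cons, List.append_assoc, ← h2, List.take_append_drop]
    · intro B hB'
      rcases List.mem_cons.1 hB' with rfl | hB'
      · exact hB
      · exact h3 B hB'
    · rw [List.flatten_cons, List.length_append, hlt]
      omega
    · rw [List.flatten_cons, List.length_append, hlt, ← Nat.sub_sub]
      exact h5

theorem unique_dd (w : ι → ℕ) (P P' : List (List (ι × Bool))) (R R' : List (ι × Bool))
    (hP : ∀ B ∈ P, Exc w B) (hP' : ∀ B ∈ P', Exc w B) (hl : P.length = P'.length)
    (he : P.flatten ++ R = P'.flatten ++ R') : P = P' ∧ R = R' := by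
  induction P generalizing P' with
  | nil =>
    have : P' = [] := by
      rw [List.length_nil] at hl
      exact List.length_eq_zero_iff.1 hl.symm
    subst this
    simpa using he
  | cons B P ih =>
    rcases P' with _ | ⟨B', P'⟩
    · simp at hl
    rw [List.flatten_cons, List.flatten_cons, List.append_assoc, List.append_assoc] at he
    have hb := hP B (by simp)
    have hb' := hP' B' (by simp)
    have hlen : B.length = B'.length := by
      rcases lt_trichotomy B.length B'.length with hlt | heq | hgt
      · exfalso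
        have h1 : B = B'.take B.length := by
          have := congrArg (List.take B.length) he
          rw [List.take_left, List.take_append_of_le_length hlt.le] at this
          exact this
        have h2 := hb'.2.2 B.length (List.length_pos_iff.2 hb.1) hlt
        rw [← h1] at h2
        exact h2 hb.2.1
      · exact heq
      · exfalso
        have h1 : B' = B.take B'.length := by
          have := congrArg (List.take B'.length) he
          rw [List.take_left, List.take_append_of_le_length hgt.le] at this
          exact this.symm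
        have h2 := hb.2.2 B'.length (List.length_pos_iff.2 hb'.1) hgt
        rw [← h1] at h2
        exact h2 hb'.2.1
    obtain ⟨h1, h2⟩ := List.append_inj he hlen
    obtain ⟨h3, h4⟩ := ih P' (fun B hB => hP B (by simp [hB])) (fun B hB => hP' B (by simp [hB]))
      (by simpa using hl) h2
    exact ⟨by rw [h1, h3], h4⟩

/-- action of a signed permutation on the blocks -/
def actB {l : ℕ} (g : SPerm l) (f : Fin l → List (ι × Bool)) : Fin l → List (ι × Bool) :=
  fun i => if g.2 i then f (g.1 i) else flipS (f (g.1 i))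

theorem actB_inj {l : ℕ} (g : SPerm l) : Function.Injective (actB (ι := ι) g) := by
  intro f f' h
  funext i
  have := congrFun h (g.1.symm i)
  unfold actB at this
  simp only [Equiv.apply_symm_apply] at this
  by_cases hg : g.2 (g.1.symm i) = true
  · simpa [hg] using this
  · simp only [hg] at this
    have h2 := congrArg flipS this
    simpa [flipS_flipS] using h2

theorem map_fst_actB {l : ℕ} (g : SPerm l) (f : Fin l → List (ι × Bool)) :
    (fun i => (actB g f i).map Prod.fst) = fun i => (f (g.1 i)).map Prod.fst := by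
  funext i
  unfold actB
  split_ifs
  · rfl
  · rw [map_fst_flipS]

theorem perm_flatten_ofFn {α : Type*} {l : ℕ} (s : Equiv.Perm (Fin l)) (f : Fin l → List α) :
    (List.ofFn (fun i => f (s i))).flatten.Perm (List.ofFn f).flatten := by
  apply List.Perm.flatten
  exact Equiv.Perm.ofFn_comp_perm s f

theorem ofFn_map {α β : Type*} {l : ℕ} (f : Fin l → α) (h : α → β) :
    (List.ofFn f).map h = List.ofFn (fun i => h (f i)) := by
  rw [List.map_ofFn]; rfl

theorem actB_perm {l : ℕ} (g : SPerm l) (f : Fin l → List (ι × Bool)) (R : List (ι × Bool)) :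
    (((List.ofFn (actB g f)).flatten ++ R).map Prod.fst).Perm
      (((List.ofFn f).flatten ++ R).map Prod.fst) := by
  rw [List.map_append, List.map_append]
  apply List.Perm.append_right
  rw [List.map_flatten, List.map_flatten, ofFn_map, ofFn_map]
  have := map_fst_actB g f
  rw [this]
  exact perm_flatten_ofFn g.1 (fun i => (f i).map Prod.fst)

theorem actB_length {l : ℕ} (g : SPerm l) (f : Fin l → List (ι × Bool)) :
    (List.ofFn (actB g f)).flatten.length = (List.ofFn f).flatten.length := by
  have := (actB_perm g f []).length_eq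
  rw [List.length_map, List.length_map, List.append_nil, List.append_nil] at this
  exact this

theorem actB_DD {w : ι → ℕ} {m l : ℕ} (g : SPerm l) (f : Fin l → List (ι × Bool))
    (R : List (ι × Bool)) (h : DD w m (List.ofFn f) R) : DD w m (List.ofFn (actB g f)) R := by
  refine ⟨?_, ?_, ?_⟩
  · intro B hB
    rw [List.mem_ofFn] at hB
    obtain ⟨i, rfl⟩ := hB
    have h1 : Exc w (f (g.1 i)) := h.1 _ (List.mem_ofFn.2 ⟨g.1 i, rfl⟩)
    unfold actB
    split_ifs
    · exact h1
    · exact Exc_flipS h1
  · rw [actB_length]; exact h.2.1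
  · rw [actB_length]; exact h.2.2

theorem Ht_flatten (v : ι → ℤ) (P : List (List (ι × Bool))) :
    Ht v P.flatten = (P.map (Ht v)).sum := by
  induction P with
  | nil => rfl
  | cons B P ih => rw [List.flatten_cons, Ht_append, ih]; simp

theorem Ht_actB {l : ℕ} (v : ι → ℤ) (g : SPerm l) (f : Fin l → List (ι × Bool)) (n : ℕ) :
    Ht v ((List.ofFn (actB g f)).take n).flatten =
      Ht (fun i => Ht v (f i)) ((plist g).take n) := by
  rw [Ht_flatten]
  unfold Ht plist
  rw [List.map_take, List.map_take, ofFn_map, ofFn_map]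
  congr 2
  apply congrArg
  funext i
  have : (((actB g f i).map fun x => if x.2 then v x.1 else -v x.1)).sum = Ht v (actB g f i) := rfl
  rw [this]
  unfold actB
  by_cases hg : g.2 i = true
  · simp only [hg, if_true]; rfl
  · simp only [hg]
    rw [if_neg (by simp), if_neg (by simp), Ht_flipS]; rfl

theorem expl_flatten (w : ι → ℕ) (P : List (List (ι × Bool))) (hP : ∀ B ∈ P, Exc w B) :
    expl w 0 P.flatten = 0 := by
  induction P with
  | nil => rfl
  | cons B P ih =>
    rw [List.flatten_cons, expl_append, (hP B (by simp)).2.1]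
    exact ih (fun B hB => hP B (by simp [hB]))

theorem Pos_blocks {w : ι → ℕ} {v : ι → ℤ} {m : ℕ} {P : List (List (ι × Bool))}
    {R : List (ι × Bool)} (hD : DD w m P R) (hpos : Pos w v m (P.flatten ++ R)) (n : ℕ)
    (hn : 1 ≤ n) (hn' : n ≤ P.length) : 0 < Ht v (P.take n).flatten := by
  have e : P.flatten ++ R = (P.take n).flatten ++ ((P.drop n).flatten ++ R) := by
    rw [← List.append_assoc, ← List.flatten_append, List.take_append_drop]
  have e2 : (P.flatten ++ R).take (P.take n).flatten.length = (P.take n).flatten := by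
    rw [e, List.take_left]
  have h0 : 1 ≤ (P.take n).flatten.length := by
    rcases P with _ | ⟨B, P⟩
    · simp at hn'; omega
    · obtain ⟨n, rfl⟩ : ∃ k, n = k + 1 := ⟨n - 1, by omega⟩
      rw [List.take_succ_cons, List.flatten_cons, List.length_append]
      have : 1 ≤ B.length := List.length_pos_iff.2 (hD.1 B (by simp)).1
      omega
  have h1 : (P.take n).flatten.length ≤ m := by
    have : P.flatten.length = (P.take n).flatten.length + (P.drop n).flatten.length := by
      rw [← List.length_append, ← List.flatten_append, List.take_append_drop]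
    have := hD.2.1
    omega
  have := hpos (P.take n).flatten.length h0 h1
  rw [e2] at this
  exact this (expl_flatten w _ (fun B hB => hD.1 B (List.mem_of_mem_take hB)))

variable [Fintype ι] [DecidableEq ι]

open Classical in
/-- the decomposition of an arrangement (junk value if there is none) -/
noncomputable def decB (w : ι → ℕ) (m l : ℕ) (xi : List (ι × Bool)) :
    (Fin l → List (ι × Bool)) × List (ι × Bool) :=
  if h : ∃ ω : (Fin l → List (ι × Bool)) × List (ι × Bool),
    (List.ofFn ω.1).flatten ++ ω.2 = xi ∧ DD w m (List.ofFn ω.1) ω.2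
  then h.choose else (fun _ => [], [])

omit [Fintype ι] [DecidableEq ι] in
theorem decB_spec (w : ι → ℕ) (m l : ℕ) (xi : List (ι × Bool)) (hm : m ≤ xi.length)
    (hl : Kz w m xi = l) : (List.ofFn (decB w m l xi).1).flatten ++ (decB w m l xi).2 = xi ∧
      DD w m (List.ofFn (decB w m l xi).1) (decB w m l xi).2 := by
  have h : ∃ ω : (Fin l → List (ι × Bool)) × List (ι × Bool),
    (List.ofFn ω.1).flatten ++ ω.2 = xi ∧ DD w m (List.ofFn ω.1) ω.2 := by
    obtain ⟨P, R, h1, h2, h3⟩ := exists_dd w l m xi hm hl
    subst h1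
    refine ⟨(P.get, R), ?_, ?_⟩
    · rw [List.ofFn_get]; exact h2.symm
    · rw [List.ofFn_get]; exact h3
  unfold decB
  rw [dif_pos h]
  exact h.choose_spec

omit [Fintype ι] [DecidableEq ι] in
theorem decB_unique (w : ι → ℕ) (m l : ℕ) (ω : (Fin l → List (ι × Bool)) × List (ι × Bool))
    (hω : DD w m (List.ofFn ω.1) ω.2) (hm : m ≤ ((List.ofFn ω.1).flatten ++ ω.2).length) :
    decB w m l ((List.ofFn ω.1).flatten ++ ω.2) = ω := by
  have hK := DD_Kz hω
  rw [List.length_ofFn] at hK
  obtain ⟨h1, h2⟩ := decB_spec w m l _ hm hK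
  obtain ⟨h3, h4⟩ := unique_dd w _ _ _ _ h2.1 hω.1 (by simp) h1
  exact Prod.ext (List.ofFn_injective h3) h4

open Classical in
/-- one class: fixed number of zeros. -/
theorem class_le (hSA : ∀ (l : ℕ) (x : Fin l → ℤ),
      Real.sqrt ((l : ℝ) + 1) * (nSA x : ℝ) ≤ (Fintype.card (SPerm l) : ℝ))
    (w : ι → ℕ) (v : ι → ℤ) (T : Finset ι) (m : ℕ) (hm : m ≤ T.card) (l : ℕ) :
    ∑ xi ∈ (arr T).filter (fun xi => Kz w m xi = l), (if Pos w v m xi then (1 : ℝ) else 0)
      ≤ (1 / Real.sqrt ((l : ℝ) + 1)) * (((arr T).filter (fun xi => Kz w m xi = l)).card : ℝ) := by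
  set Sl := (arr T).filter (fun xi => Kz w m xi = l) with hSl
  have hmem : ∀ xi ∈ Sl, m ≤ xi.length ∧ Kz w m xi = l := by
    intro xi hxi
    rw [hSl, mem_filter] at hxi
    exact ⟨by rw [length_arr hxi.1]; exact hm, hxi.2⟩
  have hinj : Set.InjOn (decB w m l) Sl := by
    intro a ha b hb hab
    have h1 := (decB_spec w m l a (hmem a ha).1 (hmem a ha).2).1
    have h2 := (decB_spec w m l b (hmem b hb).1 (hmem b hb).2).1
    rw [← h1, ← h2, hab]
  set S := Sl.image (decB w m l) with hS
  have hSmem : ∀ ω : (Fin l → List (ι × Bool)) × List (ι × Bool), ω ∈ S ↔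
      ((List.ofFn ω.1).flatten ++ ω.2 ∈ arr T ∧ DD w m (List.ofFn ω.1) ω.2) := by
    intro ω
    rw [hS, mem_image]
    constructor
    · rintro ⟨xi, hxi, rfl⟩
      obtain ⟨h1, h2⟩ := decB_spec w m l xi (hmem xi hxi).1 (hmem xi hxi).2
      refine ⟨?_, h2⟩
      rw [h1]
      exact (mem_filter.1 hxi).1
    · rintro ⟨h1, h2⟩
      refine ⟨_, ?_, decB_unique w m l ω h2 (by rw [length_arr h1]; exact hm)⟩
      rw [hSl, mem_filter]
      refine ⟨h1, ?_⟩
      rw [DD_Kz h2, List.length_ofFn]
  have hcard : S.card = Sl.card := card_image_of_injOn hinj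
  have hsum : ∑ xi ∈ Sl, (if Pos w v m xi then (1 : ℝ) else 0) =
      ∑ ω ∈ S, (if Pos w v m ((List.ofFn ω.1).flatten ++ ω.2) then (1 : ℝ) else 0) := by
    rw [hS, sum_image hinj]
    refine sum_congr rfl fun xi hxi => ?_
    rw [(decB_spec w m l xi (hmem xi hxi).1 (hmem xi hxi).2).1]
  rw [hsum, ← hcard]
  refine avg (G := SPerm l) S (fun g ω => (actB g ω.1, ω.2)) ?_ ?_ _ _ ?_
  · intro g ω hω
    rw [hSmem] at hω ⊢
    refine ⟨?_, actB_DD g ω.1 ω.2 hω.2⟩
    have hp := actB_perm g ω.1 ω.2
    have h1 := hω.1
    rw [mem_arr] at h1 ⊢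
    refine ⟨hp.nodup_iff.2 h1.1, ?_⟩
    rw [← h1.2]
    unfold supp
    exact List.toFinset_eq_of_perm _ _ hp
  · intro g a _ b _ hab
    simp only [Prod.mk.injEq] at hab
    exact Prod.ext (actB_inj g hab.1) hab.2
  · intro ω hω
    have hD := ((hSmem ω).1 hω).2
    have hle : ∑ g : SPerm l, (if Pos w v m ((List.ofFn (actB g ω.1)).flatten ++ ω.2)
        then (1 : ℝ) else 0) ≤ (nSA (fun i => Ht v (ω.1 i)) : ℝ) := by
      unfold nSA
      rw [← sum_boole]
      refine sum_le_sum fun g _ => ?_
      by_cases hpos : Pos w v m ((List.ofFn (actB g ω.1)).flatten ++ ω.2)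
      · rw [if_pos hpos, if_pos]
        intro n hn hn'
        rw [← Ht_actB]
        exact Pos_blocks (actB_DD g ω.1 ω.2 hD) hpos n hn (by simpa using hn')
      · rw [if_neg hpos]
        split_ifs <;> norm_num
    refine hle.trans ?_
    have hs : 0 < Real.sqrt ((l : ℝ) + 1) := Real.sqrt_pos.2 (by positivity)
    rw [div_mul_eq_mul_div, one_mul, le_div_iff₀ hs, mul_comm]
    exact hSA l _

theorem ValK_of_SA (hSA : ∀ (l : ℕ) (x : Fin l → ℤ),
      Real.sqrt ((l : ℝ) + 1) * (nSA x : ℝ) ≤ (Fintype.card (SPerm l) : ℝ))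
    (w : ι → ℕ) (v : ι → ℤ) (T : Finset ι) (m : ℕ) (hm : m ≤ T.card) :
    (nPos w v T m : ℝ) ≤ ∑ l ∈ arr T, 1 / Real.sqrt ((Kz w m l : ℝ) + 1) := by
  classical
  have hmaps : ∀ xi ∈ arr T, Kz w m xi ∈ range (m + 1) := by
    intro xi _
    rw [mem_range]
    have : Kz w m xi ≤ (Icc 1 m).card := card_filter_le _ _
    rw [Nat.card_Icc] at this
    omega
  unfold nPos
  rw [← sum_boole, ← sum_fiberwise_of_maps_to hmaps, ← sum_fiberwise_of_maps_to hmaps]
  refine sum_le_sum fun l _ => ?_
  refine (class_le hSA w v T m hm l).trans (le_of_eq ?_)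
  rw [mul_comm, ← nsmul_eq_mul, ← sum_const]
  refine sum_congr rfl fun xi hxi => ?_
  rw [(mem_filter.1 hxi).2]

end B

end Pool.Agent.Helper66.SAW
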